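import Pool.Agent.Helper4.MCP.GoalsB

/-!
Packet MCP-LD: large deviations (unpopular hosts cover only a small mass of labels).
-/

set_option autoImplicit false

namespace Pool.Agent.Helper13.MCP

open Pool.Agent.Helper4.MCP Pool.Agent.Helper26.MCE Pool.Agent.Helper87.MC Finset

theorem ms_mono' {Λ : Type} {m : Λ → ℝ} (hm : ∀ l, 0 ≤ m l) {A B : Finset Λ}
    (h : A ⊆ B) : ms m A ≤ ms m B :=
  Finset.sum_le_sum_of_subset_of_nonneg h fun l _ _ => hm l

theorem ms_nonneg' {Λ : Type} {m : Λ → ℝ} (hm : ∀ l, 0 ≤ m l) (A : Finset Λ) : 0 ≤ ms m A :=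
  Finset.sum_nonneg fun l _ => hm l

theorem ms_union_le' {Λ : Type} [DecidableEq Λ] {m : Λ → ℝ} (hm : ∀ l, 0 ≤ m l)
    (A B : Finset Λ) : ms m (A ∪ B) ≤ ms m A + ms m B := by
  have h : ms m (A ∪ B) + ms m (A ∩ B) = ms m A + ms m B := Finset.sum_union_inter
  have := ms_nonneg' hm (A ∩ B)
  linarith

open Classical in
/-- The elements of `B` with the property `P`. -/
noncomputable def fl {Λ : Type} (B : Finset Λ) (P : Λ → Prop) : Finset Λ := B.filter P

open Classical in
theorem mem_fl {Λ : Type} {B : Finset Λ} {P : Λ → Prop} {l : Λ} :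
    l ∈ fl B P ↔ l ∈ B ∧ P l := by
  rw [fl, Finset.mem_filter]

open Classical in
/-- The sum of `∏ m (l i)` over the `l` with the property `P`. -/
noncomputable def XX {Λ : Type} [Fintype Λ] (m : Λ → ℝ) (q : ℕ) (P : (Fin q → Λ) → Prop) : ℝ :=
  ∑ l : Fin q → Λ, if P l then ∏ i, m (l i) else 0

theorem XX_eq {Λ : Type} [Fintype Λ] (m : Λ → ℝ) (q : ℕ) (P : (Fin q → Λ) → Prop)
    [DecidablePred P] : XX m q P = ∑ l : Fin q → Λ, if P l then ∏ i, m (l i) else 0 := by
  rw [XX]
  refine Finset.sum_congr rfl fun l _ => ?_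
  by_cases h : P l
  · rw [if_pos h, if_pos h]
  · rw [if_neg h, if_neg h]

open Classical in
/-- The mass of a union of `S.card` sets of mass `≤ c` is at most `S.card * c`. -/
theorem ms_cov_le {Λ V : Type} (m : Λ → ℝ) (hm : ∀ l, 0 ≤ m l) (B : Finset Λ)
    (cov : V → Λ → Prop) (c : ℝ) (S : Finset V)
    (h : ∀ v ∈ S, ms m (fl B fun l => cov v l) ≤ c) :
    ms m (fl B fun l => ∃ v ∈ S, cov v l) ≤ S.card * c := by
  induction S using Finset.induction_on with
  | empty =>
    have : (fl B fun l => ∃ v ∈ (∅ : Finset V), cov v l) = ∅ := by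
      ext l
      rw [mem_fl]
      simp
    rw [this]
    simp [ms]
  | insert a S ha ih =>
    have h1 := ih fun v hv => h v (Finset.mem_insert_of_mem hv)
    have h2 := h a (Finset.mem_insert_self _ _)
    have h3 : (fl B fun l => ∃ v ∈ insert a S, cov v l) ⊆
        (fl B fun l => cov a l) ∪ (fl B fun l => ∃ v ∈ S, cov v l) := by
      intro l hl
      simp only [mem_fl, Finset.mem_union, Finset.mem_insert] at hl ⊢
      obtain ⟨hlB, v, hv, hvl⟩ := hl
      rcases hv with rfl | hv
      · exact Or.inl ⟨hlB, hvl⟩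
      · exact Or.inr ⟨hlB, v, hv, hvl⟩
    have h4 := (ms_mono' hm h3).trans (ms_union_le' hm _ _)
    rw [Finset.card_insert_of_notMem ha]
    push_cast
    linarith

open Classical in
/-- Greedy choice. -/
theorem low {Λ V : Type} [Fintype Λ] (m : Λ → ℝ) (hm : ∀ l, 0 ≤ m l) (B : Finset Λ)
    (U : V → Prop) (cov : V → Λ → Prop) (Q : ℕ) (c : ℝ) (hc : 0 ≤ c)
    (h : ∀ S : Finset V, (∀ v ∈ S, U v) → S.card < Q →
      c ≤ ms m (fl B fun l => ∃ v, U v ∧ v ∉ S ∧ cov v l)) :
    ∀ (q : ℕ) (S : Finset V), (∀ v ∈ S, U v) → S.card + q ≤ Q →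
      c ^ q ≤ XX m q fun l => (∀ i, l i ∈ B) ∧ ∃ v : Fin q → V, Function.Injective v ∧
        ∀ i, v i ∉ S ∧ cov (v i) (l i) := by
  intro q
  simp only [XX_eq]
  induction q with
  | zero =>
    intro S _ _
    rw [Fintype.sum_unique]
    rw [if_pos]
    · simp
    · exact ⟨fun i => i.elim0, fun i => i.elim0, fun a => a.elim0, fun i => i.elim0⟩
  | succ q ih =>
    intro S hS hSq
    have hcA := h S hS (by omega)
    have hpn : ∀ (n : ℕ) (l : Fin n → Λ), 0 ≤ ∏ i, m (l i) :=
      fun n l => Finset.prod_nonneg fun i _ => hm _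
    have hstep : ∀ l0 ∈ (fl B fun l => ∃ v, U v ∧ v ∉ S ∧ cov v l), c ^ q * m l0 ≤
        ∑ l' : Fin q → Λ, if (∀ i, (Fin.cons l0 l' : Fin (q+1) → Λ) i ∈ B) ∧
          ∃ v : Fin (q+1) → V, Function.Injective v ∧
            ∀ i, v i ∉ S ∧ cov (v i) ((Fin.cons l0 l' : Fin (q+1) → Λ) i) then
          ∏ i, m ((Fin.cons l0 l' : Fin (q+1) → Λ) i) else 0 := by
      intro l0 hl0
      rw [mem_fl] at hl0
      obtain ⟨hl0B, v0, hUv0, hv0S, hcv0⟩ := hl0
      have h1 := ih (insert v0 S) (by
        intro v hv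
        rcases Finset.mem_insert.1 hv with rfl | hv
        · exact hUv0
        · exact hS v hv) (by
        rw [Finset.card_insert_of_notMem hv0S]
        omega)
      calc c ^ q * m l0 ≤ (∑ l : Fin q → Λ, if (∀ i, l i ∈ B) ∧ ∃ v : Fin q → V,
            Function.Injective v ∧ ∀ i, v i ∉ insert v0 S ∧ cov (v i) (l i) then
              ∏ i, m (l i) else 0) * m l0 := mul_le_mul_of_nonneg_right h1 (hm l0)
        _ = ∑ l : Fin q → Λ, (if (∀ i, l i ∈ B) ∧ ∃ v : Fin q → V,
            Function.Injective v ∧ ∀ i, v i ∉ insert v0 S ∧ cov (v i) (l i) then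
              ∏ i, m (l i) else 0) * m l0 := by rw [Finset.sum_mul]
        _ ≤ _ := by
          refine Finset.sum_le_sum fun l' _ => ?_
          by_cases hP : (∀ i, l' i ∈ B) ∧ ∃ v : Fin q → V,
            Function.Injective v ∧ ∀ i, v i ∉ insert v0 S ∧ cov (v i) (l' i)
          · rw [if_pos hP, if_pos]
            · rw [Fin.prod_univ_succ]
              simp only [Fin.cons_zero, Fin.cons_succ]
              exact le_of_eq (mul_comm _ _)
            · obtain ⟨hlB, v, hvi, hv⟩ := hP
              refine ⟨fun i => ?_, Fin.cons v0 v, ?_, fun i => ?_⟩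
              · refine Fin.cases ?_ (fun i => ?_) i
                · simpa using hl0B
                · simpa using hlB i
              · rw [Fin.cons_injective_iff]
                refine ⟨?_, hvi⟩
                rintro ⟨i, hi⟩
                exact (hv i).1 (by rw [hi]; exact Finset.mem_insert_self _ _)
              · refine Fin.cases ?_ (fun i => ?_) i
                · simpa using ⟨hv0S, hcv0⟩
                · simp only [Fin.cons_succ]
                  exact ⟨fun h => (hv i).1 (Finset.mem_insert_of_mem h), (hv i).2⟩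
          · rw [if_neg hP, zero_mul]
            split_ifs
            · exact hpn _ _
            · exact le_refl _
    calc c ^ (q + 1) = c ^ q * c := pow_succ _ _
      _ ≤ c ^ q * ms m (fl B fun l => ∃ v, U v ∧ v ∉ S ∧ cov v l) :=
          mul_le_mul_of_nonneg_left hcA (pow_nonneg hc _)
      _ = ∑ l0 ∈ (fl B fun l => ∃ v, U v ∧ v ∉ S ∧ cov v l), c ^ q * m l0 := by
          rw [ms, Finset.mul_sum]
      _ ≤ ∑ l0 ∈ (fl B fun l => ∃ v, U v ∧ v ∉ S ∧ cov v l),
          ∑ l' : Fin q → Λ, (if (∀ i, (Fin.cons l0 l' : Fin (q+1) → Λ) i ∈ B) ∧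
          ∃ v : Fin (q+1) → V, Function.Injective v ∧
            ∀ i, v i ∉ S ∧ cov (v i) ((Fin.cons l0 l' : Fin (q+1) → Λ) i) then
          ∏ i, m ((Fin.cons l0 l' : Fin (q+1) → Λ) i) else 0) := Finset.sum_le_sum hstep
      _ ≤ ∑ l0 : Λ,
          ∑ l' : Fin q → Λ, (if (∀ i, (Fin.cons l0 l' : Fin (q+1) → Λ) i ∈ B) ∧
          ∃ v : Fin (q+1) → V, Function.Injective v ∧
            ∀ i, v i ∉ S ∧ cov (v i) ((Fin.cons l0 l' : Fin (q+1) → Λ) i) then
          ∏ i, m ((Fin.cons l0 l' : Fin (q+1) → Λ) i) else 0) := by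
          refine Finset.sum_le_univ_sum_of_nonneg fun l0 => Finset.sum_nonneg fun l' _ => ?_
          split_ifs
          · exact hpn _ _
          · exact le_refl _
      _ = _ := by
          rw [← (Fin.consEquiv (fun _ : Fin (q + 1) => Λ)).sum_comp, Fintype.sum_prod_type]
          rfl

open Classical in
/-- The number of the `ω` which have prescribed places on an injective tuple. -/
theorem cnt {G : Type} [AddCommGroup G] [Fintype G] (D : Finset G) (M Q : ℕ)
    (z : Fin Q → G) (v : Fin Q → Fin M) (hv : Function.Injective v) :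
    (univ.filter fun ω : Fin M → G => ∀ i, z i - ω (v i) ∈ D).card * Fintype.card G ^ Q =
      D.card ^ Q * Fintype.card G ^ M := by
  have hD : ∀ x : G, (univ.filter fun y : G => x - y ∈ D).card = D.card := by
    intro x
    refine Finset.card_bij (fun y _ => x - y) ?_ ?_ ?_
    · intro y hy
      simpa using hy
    · intro y _ y' _ h
      exact sub_right_injective h
    · intro d hd
      exact ⟨x - d, by simpa using hd, by simp⟩
  set A : Fin M → Finset G := fun j =>
    if h : ∃ i, v i = j then univ.filter fun y : G => z h.choose - y ∈ D else univ with hA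
  have hAv : ∀ i, A (v i) = univ.filter fun y : G => z i - y ∈ D := by
    intro i
    have hex : ∃ i', v i' = v i := ⟨i, rfl⟩
    have : hex.choose = i := hv hex.choose_spec
    simp only [hA]
    rw [dif_pos hex, this]
  have hset : (univ.filter fun ω : Fin M → G => ∀ i, z i - ω (v i) ∈ D) =
      Fintype.piFinset A := by
    ext ω
    rw [Finset.mem_filter, Fintype.mem_piFinset]
    constructor
    · rintro ⟨_, h⟩ j
      by_cases hj : ∃ i, v i = j
      · obtain ⟨i, rfl⟩ := hj
        rw [hAv]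
        simpa using h i
      · simp only [hA]
        rw [dif_neg hj]
        exact Finset.mem_univ _
    · intro h
      refine ⟨Finset.mem_univ _, fun i => ?_⟩
      have := h (v i)
      rw [hAv] at this
      simpa using this
  rw [hset, Fintype.card_piFinset]
  have h1 : ∏ j, (A j).card = (∏ j ∈ univ.image v, (A j).card) *
      ∏ j ∈ (univ.image v)ᶜ, (A j).card := (Finset.prod_mul_prod_compl _ _).symm
  have h2 : ∏ j ∈ univ.image v, (A j).card = D.card ^ Q := by
    rw [Finset.prod_image (fun a _ b _ h => hv h)]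
    rw [Finset.prod_congr rfl (fun i _ => by rw [hAv i, hD (z i)])]
    simp
  have h3 : ∏ j ∈ (univ.image v)ᶜ, (A j).card = Fintype.card G ^ ((univ.image v)ᶜ).card := by
    rw [Finset.prod_congr rfl (g := fun _ => Fintype.card G)]
    · rw [Finset.prod_const]
    · intro j hj
      have hj' : ¬ ∃ i, v i = j := by
        rintro ⟨i, hi⟩
        rw [Finset.mem_compl] at hj
        exact hj (Finset.mem_image.2 ⟨i, Finset.mem_univ _, hi⟩)
      simp only [hA]
      rw [dif_neg hj']
      rfl
  have h4 : (univ.image v).card = Q := by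
    rw [Finset.card_image_of_injective _ hv]
    simp
  have h5 : ((univ.image v)ᶜ).card + Q = M := by
    have := Finset.card_add_card_compl (univ.image v)
    rw [h4] at this
    simp only [Fintype.card_fin] at this
    omega
  rw [h1, h2, h3, mul_assoc, ← pow_add, h5]

open Classical in
/-- The upper bound. -/
theorem upp {G : Type} [AddCommGroup G] [Fintype G] (D : Finset G) {Λ : Type} [Fintype Λ]
    (e : Λ → G) (m : Λ → ℝ) (hm : ∀ l, 0 ≤ m l) (B : Finset Λ) (M Q : ℕ) (g : G) :
    (∑ ω : Fin M → G, XX m Q fun l => (∀ i, l i ∈ B) ∧ ∃ v : Fin Q → Fin M,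
      Function.Injective v ∧ ∀ i, v i ∉ (∅ : Finset (Fin M)) ∧ g + e (l i) - ω (v i) ∈ D) *
        (Fintype.card G : ℝ) ^ Q ≤
      (ms m B) ^ Q * (M : ℝ) ^ Q * (D.card : ℝ) ^ Q * (Fintype.card G : ℝ) ^ M := by
  simp only [XX_eq]
  have hpn : ∀ (l : Fin Q → Λ), 0 ≤ ∏ i, m (l i) := fun l => Finset.prod_nonneg fun i _ => hm _
  rw [Finset.sum_comm, Finset.sum_mul]
  have key : ∀ l : Fin Q → Λ, (∑ ω : Fin M → G, if (∀ i, l i ∈ B) ∧ ∃ v : Fin Q → Fin M,
      Function.Injective v ∧ ∀ i, v i ∉ (∅ : Finset (Fin M)) ∧ g + e (l i) - ω (v i) ∈ D then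
        ∏ i, m (l i) else 0) * (Fintype.card G : ℝ) ^ Q ≤
      (if ∀ i, l i ∈ B then ∏ i, m (l i) else 0) *
        ((M : ℝ) ^ Q * (D.card : ℝ) ^ Q * (Fintype.card G : ℝ) ^ M) := by
    intro l
    by_cases hl : ∀ i, l i ∈ B
    · rw [if_pos hl]
      have h1 : (∑ ω : Fin M → G, if (∀ i, l i ∈ B) ∧ ∃ v : Fin Q → Fin M,
          Function.Injective v ∧ ∀ i, v i ∉ (∅ : Finset (Fin M)) ∧ g + e (l i) - ω (v i) ∈ D then
            ∏ i, m (l i) else 0) =
          ((univ.filter fun ω : Fin M → G => ∃ v : Fin Q → Fin M,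
            Function.Injective v ∧ ∀ i, g + e (l i) - ω (v i) ∈ D).card : ℝ) *
              ∏ i, m (l i) := by
        rw [← Finset.sum_filter, Finset.sum_const, nsmul_eq_mul]
        congr 3
        ext ω
        simp [hl]
      rw [h1]
      have h2 : (univ.filter fun ω : Fin M → G => ∃ v : Fin Q → Fin M,
            Function.Injective v ∧ ∀ i, g + e (l i) - ω (v i) ∈ D) ⊆
          (univ.filter fun v : Fin Q → Fin M => Function.Injective v).biUnion fun v =>
            univ.filter fun ω : Fin M → G => ∀ i, (g + e (l i)) - ω (v i) ∈ D := by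
        intro ω hω
        rw [Finset.mem_filter] at hω
        obtain ⟨_, v, hvi, hv⟩ := hω
        rw [Finset.mem_biUnion]
        exact ⟨v, by simpa using hvi, by simpa using hv⟩
      have h3 : (univ.filter fun ω : Fin M → G => ∃ v : Fin Q → Fin M,
            Function.Injective v ∧ ∀ i, g + e (l i) - ω (v i) ∈ D).card *
              Fintype.card G ^ Q ≤ M ^ Q * (D.card ^ Q * Fintype.card G ^ M) := by
        calc _ ≤ (∑ v ∈ (univ.filter fun v : Fin Q → Fin M => Function.Injective v),
              (univ.filter fun ω : Fin M → G =>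
                ∀ i, (g + e (l i)) - ω (v i) ∈ D).card) * Fintype.card G ^ Q :=
              Nat.mul_le_mul_right _ ((Finset.card_le_card h2).trans Finset.card_biUnion_le)
          _ = ∑ v ∈ (univ.filter fun v : Fin Q → Fin M => Function.Injective v),
              (univ.filter fun ω : Fin M → G =>
                ∀ i, (g + e (l i)) - ω (v i) ∈ D).card * Fintype.card G ^ Q := by
              rw [Finset.sum_mul]
          _ = ∑ v ∈ (univ.filter fun v : Fin Q → Fin M => Function.Injective v),
              D.card ^ Q * Fintype.card G ^ M := by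
              refine Finset.sum_congr rfl fun v hv => ?_
              exact cnt D M Q (fun i => g + e (l i)) v (by simpa using hv)
          _ = (univ.filter fun v : Fin Q → Fin M => Function.Injective v).card *
              (D.card ^ Q * Fintype.card G ^ M) := by
              rw [Finset.sum_const, smul_eq_mul]
          _ ≤ _ := by
              refine Nat.mul_le_mul_right _ ((Finset.card_filter_le _ _).trans ?_)
              simp
      have h3' : ((univ.filter fun ω : Fin M → G => ∃ v : Fin Q → Fin M,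
            Function.Injective v ∧ ∀ i, g + e (l i) - ω (v i) ∈ D).card : ℝ) *
              (Fintype.card G : ℝ) ^ Q ≤
              (M : ℝ) ^ Q * ((D.card : ℝ) ^ Q * (Fintype.card G : ℝ) ^ M) := by
        exact_mod_cast h3
      have := mul_le_mul_of_nonneg_left h3' (hpn l)
      nlinarith [this]
    · rw [if_neg hl]
      simp [hl]
  refine (Finset.sum_le_sum fun l _ => key l).trans ?_
  rw [← Finset.sum_mul]
  have h6 : (∑ l : Fin Q → Λ, if ∀ i, l i ∈ B then ∏ i, m (l i) else 0) = (ms m B) ^ Q := by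
    have h7 : (ms m B) ^ Q = ∏ _i : Fin Q, ∑ j ∈ B, m j := by
      rw [Finset.prod_const]
      simp [ms]
    rw [h7, Finset.prod_univ_sum, ← Finset.sum_filter]
    refine Finset.sum_congr ?_ fun _ _ => rfl
    ext l
    simp [Fintype.mem_piFinset]
  rw [h6]
  exact le_of_eq (by ring)

open Classical in
theorem goalLD : G_LD := by
  intro G _ _ D Λ _ e m B M Q t δ hm hb hδ ht hQt hQ
  set b := ms m B with hbdef
  set n : ℝ := (Fintype.card G : ℝ) with hn
  have hn0 : 0 ≤ n := Nat.cast_nonneg _
  -- the failing places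
  set F : G → Finset (Fin M → G) := fun g => univ.filter fun ω : Fin M → G =>
    δ / 2 * b < ms m (fl B fun l => ∃ v, t * hit D e m B (g - ω v) < b ∧
      g + e l - ω v ∈ D) with hF
  have hsub : (univ.filter fun ω : Fin M → G => ¬ LDok D e m t δ ω B) ⊆
      univ.biUnion F := by
    intro ω hω
    rw [Finset.mem_filter] at hω
    have := hω.2
    rw [LDok] at this
    push Not at this
    obtain ⟨g, hg⟩ := this
    rw [Finset.mem_biUnion]
    refine ⟨g, Finset.mem_univ _, ?_⟩
    rw [hF, Finset.mem_filter]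
    refine ⟨Finset.mem_univ _, lt_of_lt_of_eq hg ?_⟩
    congr 1
    ext l
    rw [mem_fl, Finset.mem_filter]
  have hc4 : (Q : ℝ) * (b / t) ≤ δ / 4 * b := by
    rw [← mul_div_assoc, div_le_iff₀ ht]
    nlinarith [mul_le_mul_of_nonneg_right hQt hb.le]
  -- every failing place
  have hone : ∀ g, ((F g).card : ℝ) * (δ * n) ^ Q ≤ (4 * (M * D.card)) ^ Q * n ^ M := by
    intro g
    have hlow : ∀ ω ∈ F g, (δ / 4 * b) ^ Q ≤ XX m Q fun l => (∀ i, l i ∈ B) ∧
        ∃ v : Fin Q → Fin M, Function.Injective v ∧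
          ∀ i, v i ∉ (∅ : Finset (Fin M)) ∧ g + e (l i) - ω (v i) ∈ D := by
      intro ω hω
      rw [hF, Finset.mem_filter] at hω
      have hω2 := hω.2
      refine low m hm B (fun v => t * hit D e m B (g - ω v) < b)
        (fun v l => g + e l - ω v ∈ D) Q (δ / 4 * b) (by positivity) ?_ Q ∅ (by simp) (by simp)
      intro S hS hSQ
      have h1 : ms m (fl B fun l => ∃ v ∈ S, g + e l - ω v ∈ D) ≤ S.card * (b / t) := by
        refine ms_cov_le m hm B (fun v l => g + e l - ω v ∈ D) (b / t) S fun v hv => ?_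
        have h2 := hS v hv
        have h3 : hit D e m B (g - ω v) = ms m (fl B fun l => g + e l - ω v ∈ D) := by
          rw [Pool.Agent.Helper4.MCP.hit]
          congr 1
          ext l
          simp only [mem_fl, Finset.mem_filter]
          rw [show e l + (g - ω v) = g + e l - ω v by abel]
        rw [← h3, le_div_iff₀ ht]
        linarith
      have h4 : (fl B fun l => ∃ v, t * hit D e m B (g - ω v) < b ∧
          g + e l - ω v ∈ D) ⊆
          (fl B fun l => ∃ v, t * hit D e m B (g - ω v) < b ∧ v ∉ S ∧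
            g + e l - ω v ∈ D) ∪ (fl B fun l => ∃ v ∈ S, g + e l - ω v ∈ D) := by
        intro l hl
        simp only [mem_fl, Finset.mem_union] at hl ⊢
        obtain ⟨hlB, v, hv1, hv2⟩ := hl
        by_cases hvS : v ∈ S
        · exact Or.inr ⟨hlB, v, hvS, hv2⟩
        · exact Or.inl ⟨hlB, v, hv1, hvS, hv2⟩
      have h5 := (ms_mono' hm h4).trans (ms_union_le' hm _ _)
      have h6 : (S.card : ℝ) * (b / t) ≤ Q * (b / t) := by
        refine mul_le_mul_of_nonneg_right ?_ (by positivity)
        exact_mod_cast hSQ.le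
      linarith
    have hsum : ((F g).card : ℝ) * (δ / 4 * b) ^ Q ≤
        ∑ ω : Fin M → G, XX m Q fun l => (∀ i, l i ∈ B) ∧
        ∃ v : Fin Q → Fin M, Function.Injective v ∧
          ∀ i, v i ∉ (∅ : Finset (Fin M)) ∧ g + e (l i) - ω (v i) ∈ D := by
      rw [← nsmul_eq_mul]
      refine (Finset.card_nsmul_le_sum _ _ _ hlow).trans ?_
      refine Finset.sum_le_univ_sum_of_nonneg fun ω => ?_
      rw [XX]
      refine Finset.sum_nonneg fun l _ => ?_
      split_ifs
      · exact Finset.prod_nonneg fun i _ => hm _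
      · exact le_refl _
    have hup := upp D e m hm B M Q g
    have h7 : ((F g).card : ℝ) * (δ / 4 * b) ^ Q * n ^ Q ≤
        b ^ Q * (M : ℝ) ^ Q * (D.card : ℝ) ^ Q * n ^ M :=
      (mul_le_mul_of_nonneg_right hsum (pow_nonneg hn0 _)).trans hup
    have h8 : ((F g).card : ℝ) * (δ / 4 * b) ^ Q * n ^ Q =
        (((F g).card : ℝ) * (δ * n) ^ Q) * (b / 4) ^ Q := by
      rw [mul_assoc, mul_assoc, ← mul_pow, ← mul_pow]
      congr 2
      ring
    have h9 : b ^ Q * (M : ℝ) ^ Q * (D.card : ℝ) ^ Q * n ^ M =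
        ((4 * (M * D.card)) ^ Q * n ^ M) * (b / 4) ^ Q := by
      rw [← mul_pow, ← mul_pow, mul_right_comm _ (n ^ M) ((b / 4) ^ Q), ← mul_pow]
      congr 2
      ring
    rw [h8, h9] at h7
    exact le_of_mul_le_mul_right h7 (by positivity)
  have hcard : ((univ.filter fun ω : Fin M → G => ¬ LDok D e m t δ ω B).card : ℝ) ≤
      ∑ g : G, ((F g).card : ℝ) := by
    have := (Finset.card_le_card hsub).trans Finset.card_biUnion_le
    exact_mod_cast this
  calc ((univ.filter fun ω : Fin M → G => ¬ LDok D e m t δ ω B).card : ℝ) * (δ * n) ^ Q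
      ≤ (∑ g : G, ((F g).card : ℝ)) * (δ * n) ^ Q :=
        mul_le_mul_of_nonneg_right hcard (pow_nonneg (by positivity) _)
    _ = ∑ g : G, ((F g).card : ℝ) * (δ * n) ^ Q := by rw [Finset.sum_mul]
    _ ≤ ∑ _g : G, (4 * (M * D.card)) ^ Q * n ^ M := Finset.sum_le_sum fun g _ => hone g
    _ = n * (4 * (M * D.card)) ^ Q * n ^ M := by
        rw [Finset.sum_const, nsmul_eq_mul, Finset.card_univ, mul_assoc]

end Pool.Agent.Helper13.MCP
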